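import Mathlib
import Pool.Prelude.Def_F_c31e40fa
import Pool.Agent.Q186.Cusp.Ray

/-!
# The exterior map of the Mandelbrot set at the cusp: exact asymptotics

Let `ψ` be the exterior map of the Mandelbrot set. At the cusp `1 / 4`, with the constant
`κ = π log 2`: the ray of angle zero lands with the exact speed
`ψ (e ^ t) - 1 / 4 ∼ (κ / log (1 / t)) ^ 2`; Green's function is at most
`exp (- (1 - o(1)) κ / √r)` at all points at distance at most `r`, and this is attained on the real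
axis; the harmonic measure of the disc of radius `r` is `exp (- (κ + o(1)) / √r)`; and if the
Mandelbrot set is locally connected then the modulus of continuity of the parametrization of its
boundary is, at the cusp, at least `(κ ^ 2 - o(1)) / log (1 / t) ^ 2`.
-/

set_option autoImplicit false

open Filter Topology Set Metric MeasureTheory N62a1eb23

namespace Pool.Agent.Results.MP_c6f924_an.CuspAsymptotics

open Pool.Agent.H713R2 (IsExteriorMap)

/-- The measure of the set of the angles `θ` in `(0, 2π]` such that the external ray of the Mandelbrot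
set of angle `θ` lands in the open disc of centre `c₀` and radius `r`, that is `2π` times the harmonic
measure of this disc. -/
noncomputable def harm (ψ : ℂ → ℂ) (c₀ : ℂ) (r : ℝ) : ℝ :=
  (volume {θ : ℝ | θ ∈ Ioc 0 (2 * Real.pi) ∧ ∃ ζ ∈ ball c₀ r,
    Tendsto (fun ρ : ℝ => ψ (ρ * Complex.exp (θ * Complex.I))) (𝓝[>] 1) (𝓝 ζ)}).toReal

/-- `F` is the continuous extension of the exterior map `ψ` to the closed exterior of the unit disc
(it exists if and only if the Mandelbrot set is locally connected). -/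
def Extends (F ψ : ℂ → ℂ) : Prop :=
  ContinuousOn F {w | 1 ≤ ‖w‖} ∧ ∀ w, 1 < ‖w‖ → F w = ψ w

/-- The exterior map `ψ` of the Mandelbrot set exists, and (with `κ = π log 2`)

(1) `log (1 / t) ^ 2 * |ψ (e ^ t) - 1 / 4|` tends to `κ ^ 2` as `t → 0+`;

(2) for every `δ > 0` there is `r₀ > 0` such that for `0 < r ≤ r₀` and all `w` with `|w| > 1` and
`|ψ w - 1 / 4| ≤ r` Green's function `log |w|` is at most `exp (- (1 - δ) κ / √r)`;

(3) `√r * log (1 / harm (1 / 4) r)` tends to `κ` as `r → 0+`;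

(4) if `F` is the continuous extension of `ψ` to the closed exterior of the unit disc, then
`F 1 = 1 / 4`, and for every `δ > 0` there is `t₀ > 0` such that for all `0 < t ≤ t₀` some `ξ` on the
unit circle with `|ξ - 1| ≤ t` has `|F ξ - F 1| ≥ (1 - δ) κ ^ 2 / log (1 / t) ^ 2`. -/
theorem result :
    (∃ ψ : ℂ → ℂ, IsExteriorMap mandelbrotSet ψ) ∧
    ∀ ψ : ℂ → ℂ, IsExteriorMap mandelbrotSet ψ →
      Tendsto (fun t : ℝ => Real.log (1 / t) ^ 2 * ‖ψ (Real.exp t : ℝ) - 1 / 4‖) (𝓝[>] 0)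
        (𝓝 ((Real.pi * Real.log 2) ^ 2)) ∧
      (∀ δ : ℝ, 0 < δ → ∃ r₀ : ℝ, 0 < r₀ ∧ ∀ r : ℝ, 0 < r → r ≤ r₀ → ∀ w : ℂ, 1 < ‖w‖ →
        ‖ψ w - 1 / 4‖ ≤ r →
          Real.log ‖w‖ ≤ Real.exp (-((1 - δ) * (Real.pi * Real.log 2 / √r)))) ∧
      Tendsto (fun r : ℝ => √r * Real.log (1 / harm ψ (1 / 4) r)) (𝓝[>] 0)
        (𝓝 (Real.pi * Real.log 2)) ∧
      ∀ F : ℂ → ℂ, Extends F ψ → F 1 = 1 / 4 ∧
        ∀ δ : ℝ, 0 < δ → ∃ t₀ : ℝ, 0 < t₀ ∧ ∀ t : ℝ, 0 < t → t ≤ t₀ →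
          ∃ ξ : ℂ, ‖ξ‖ = 1 ∧ ‖ξ - 1‖ ≤ t ∧
            (1 - δ) * (Real.pi * Real.log 2) ^ 2 / Real.log (1 / t) ^ 2 ≤ ‖F ξ - F 1‖ := by
  have hd : 2 ≤ 2 := le_rfl
  obtain ⟨β, hβ⟩ := Pool.Agent.H713R2.exists_beta (d := 2) hd
  have hs : Pool.Agent.H712R2.sr 2 = 1 / 2 := by
    have h1 := Pool.Agent.H712R2.sr_pow hd
    simpa using h1
  have hr : Pool.Agent.H712R2.rr 2 = 1 / 4 := by
    unfold Pool.Agent.H712R2.rr
    rw [hs]
    norm_num
  have hrc : ((Pool.Agent.H712R2.rr 2 : ℝ) : ℂ) = 1 / 4 := by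
    rw [hr]
    norm_num
  have hA : Pool.Agent.Q186.Cusp.AA 2 = 1 := by
    rw [Pool.Agent.Q186.Cusp.AA_eq hd, hs]
    norm_num
  have hk : Pool.Agent.Q186.Cusp.kap 2 = Real.pi * Real.log 2 := by
    unfold Pool.Agent.Q186.Cusp.kap
    rw [hA, Real.sqrt_one, div_one]
    norm_num
  have hpos : 0 < Real.pi * Real.log 2 := by
    have := Real.log_pos (show (1 : ℝ) < 2 by norm_num)
    positivity
  refine ⟨⟨_, Pool.Agent.H713R2.exteriorMap_of_beta hβ⟩, ?_⟩
  intro ψ hψ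
  refine ⟨?_, ?_, ?_, ?_⟩
  · have h1 := Pool.Agent.Q186.Cusp.ray_lim hd hψ
    rw [hk, hrc] at h1
    exact h1
  · intro δ hδ
    obtain ⟨r₀, hr₀, H⟩ := Pool.Agent.Q186.Cusp.green_up hd (δ := min δ 1) (lt_min hδ one_pos)
      (min_le_right _ _)
    refine ⟨r₀, hr₀, ?_⟩
    intro r hr hrr w hw hwr
    have h1 := H r hr hrr (ψ w) (by rw [hrc]; exact hwr) _
      (Pool.Agent.Q186.Cen.rate_psi hd hψ hw)
    refine h1.trans ?_
    rw [Pool.Agent.Q186.Cusp.kap_eq hd, hk]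
    apply Real.exp_le_exp.2
    apply neg_le_neg
    apply mul_le_mul_of_nonneg_right _ (by positivity)
    have := min_le_left δ 1
    linarith
  · have h1 := Pool.Agent.Q186.Cusp.harm_lim hd hψ
    rw [hk, hrc] at h1
    exact h1
  · intro F hF
    have hF1 := Pool.Agent.Q186.Cusp.F_one hd hψ hF.1 hF.2
    rw [hrc] at hF1
    refine ⟨hF1, ?_⟩
    intro δ hδ
    obtain ⟨t₀, ht₀, ht₀1, H⟩ := Pool.Agent.Q186.Cusp.loop hd (δ := min δ (1 / 2))
      (lt_min hδ (by norm_num)) (lt_of_le_of_lt (min_le_right _ _) (by norm_num))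
    refine ⟨t₀, ht₀, ?_⟩
    intro t ht htt
    obtain ⟨ξ, h1, h2, h3⟩ := H ψ hψ F hF.1 hF.2 t ht htt
    refine ⟨ξ, h1, h2, ?_⟩
    rw [hF1]
    rw [hk, hrc] at h3
    refine le_trans ?_ h3
    have := min_le_left δ (1 / 2)
    gcongr

end Pool.Agent.Results.MP_c6f924_an.CuspAsymptotics
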