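import Mathlib
import Pool.Prelude.Def_F_c31e40fa
import Pool.Agent.Q186.Par

set_option autoImplicit false

/-! # The Mandelbrot set at parabolic parameters: Green's function, harmonic measure and the modulus
of continuity of the Carathéodory loop

At every parabolic parameter `c₀` (for example `1/4` and `-3/4`) Green's function of the Mandelbrot
set is at most `12 exp (-A / √|c - c₀|)`, the harmonic measure of the disc of radius `r` about `c₀`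
is at most `exp (-A / √r) / A`, and if the Mandelbrot set is locally connected then the
parametrization of its boundary by the circle has near `c₀` modulus of continuity at least
`A / log (1 / δ) ^ 2`. -/

open Filter Topology Set Metric MeasureTheory Complex N62a1eb23

namespace Pool.Agent.Results.MP_c6f924_an.ParabolicModulus

open Pool.Agent.H713R2

/-- the quadratic polynomial `z ^ 2 + c` -/
def f (c : ℂ) : ℂ → ℂ := fun z => z ^ 2 + c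

/-- `c₀` is a parabolic parameter: the critical orbit of `f c₀` converges to a parabolic cycle, that is,
for some `N ≥ 1` the points `f^[N k] 0` converge to a fixed point of `f^[N]` with multiplier `1`. (By
Fatou's theorem this holds whenever `f c₀` has a cycle whose multiplier is a root of unity.) -/
def Parabolic (c₀ : ℂ) : Prop :=
  ∃ N : ℕ, 1 ≤ N ∧ ∃ z₀ : ℂ, (f c₀)^[N] z₀ = z₀ ∧ deriv ((f c₀)^[N]) z₀ = 1 ∧
    Tendsto (fun k => (f c₀)^[N * k] 0) atTop (𝓝 z₀)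

/-- the angles `t ∈ (0, 2π]` of the external rays of the Mandelbrot set landing at distance less than
`r` from `c₀` (`ψ` is the exterior map) -/
def angles (ψ : ℂ → ℂ) (c₀ : ℂ) (r : ℝ) : Set ℝ :=
  {t | t ∈ Ioc 0 (2 * Real.pi) ∧ ∃ ζ ∈ ball c₀ r,
    Tendsto (fun ρ : ℝ => ψ (ρ * exp (t * I))) (𝓝[>] 1) (𝓝 ζ)}

/-- the harmonic measure of the disc of radius `r` about `c₀`, up to the factor `2π` -/
noncomputable def harm (ψ : ℂ → ℂ) (c₀ : ℂ) (r : ℝ) : ℝ := (volume (angles ψ c₀ r)).toReal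

/-- `F` is the continuous extension of the exterior map `ψ` to the closed exterior of the unit disc
(it exists if and only if the Mandelbrot set is locally connected). -/
def Extends (F ψ : ℂ → ℂ) : Prop :=
  ContinuousOn F {w | 1 ≤ ‖w‖} ∧ ∀ w, 1 < ‖w‖ → F w = ψ w

/-- `F` has at the point `ζ` of the unit circle modulus of continuity at least `A / log (1 / δ) ^ 2`. -/
def SlowAt (A : ℝ) (F : ℂ → ℂ) (ζ : ℂ) : Prop :=
  ∀ δ : ℝ, 0 < δ → δ ≤ 1 / 2 → ∃ ξ : ℂ, ‖ξ‖ = 1 ∧ ‖ξ - ζ‖ ≤ δ ∧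
    A / Real.log (1 / δ) ^ 2 ≤ ‖F ξ - F ζ‖

/-- **Green's function, harmonic measure and the Carathéodory loop at parabolic parameters.** -/
theorem result :
    (∃ ψ : ℂ → ℂ, IsExteriorMap mandelbrotSet ψ) ∧
    (∀ c₀ : ℂ, Parabolic c₀ → c₀ ∈ mandelbrotSet ∧ ∃ A : ℝ, 0 < A ∧
      ∀ ψ : ℂ → ℂ, IsExteriorMap mandelbrotSet ψ →
        (∀ w : ℂ, 1 < ‖w‖ → ‖w‖ ≤ 2 →
          Real.log ‖w‖ ≤ 12 * Real.exp (-(A / √‖ψ w - c₀‖))) ∧
        (∀ r : ℝ, 0 < r → r ≤ 1 → harm ψ c₀ r ≤ Real.exp (-(A / √r)) / A) ∧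
        ∀ F : ℂ → ℂ, Extends F ψ → ∀ ζ : ℂ, ‖ζ‖ = 1 → F ζ = c₀ → SlowAt A F ζ) ∧
    Parabolic (1 / 4) ∧ Parabolic (-3 / 4) ∧
    ∃ A : ℝ, 0 < A ∧ ∀ ψ : ℂ → ℂ, IsExteriorMap mandelbrotSet ψ → ∀ F : ℂ → ℂ, Extends F ψ →
      ∃ ζ : ℂ, ‖ζ‖ = 1 ∧ F ζ = 1 / 4 ∧ SlowAt A F ζ := by
  obtain ⟨β, hβ⟩ := exists_beta (d := 2) le_rfl
  have hpar : ∀ c₀ : ℂ, Parabolic c₀ → c₀ ∈ mandelbrotSet ∧ ∃ A : ℝ, 0 < A ∧
      ∀ ψ : ℂ → ℂ, IsExteriorMap mandelbrotSet ψ →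
        (∀ w : ℂ, 1 < ‖w‖ → ‖w‖ ≤ 2 →
          Real.log ‖w‖ ≤ 12 * Real.exp (-(A / √‖ψ w - c₀‖))) ∧
        (∀ r : ℝ, 0 < r → r ≤ 1 → harm ψ c₀ r ≤ Real.exp (-(A / √r)) / A) ∧
        ∀ F : ℂ → ℂ, Extends F ψ → ∀ ζ : ℂ, ‖ζ‖ = 1 → F ζ = c₀ → SlowAt A F ζ := by
    rintro c₀ ⟨N, hN, z₀, hfix, hder, hlim⟩
    have hc₀ : c₀ ∈ multibrotSet 2 := Pool.Agent.Q186.Par.mem_of_lim hN hlim
    obtain ⟨C, hC⟩ := Pool.Agent.Y736.HL.parabolic_LL hc₀ hN hfix hder hlim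
    obtain ⟨A, hA, h⟩ := Pool.Agent.Q186.Par.main hc₀ hC
    exact ⟨hc₀, A, hA, fun ψ hψ => ⟨(h ψ hψ).1, (h ψ hψ).2.1, fun F hF ζ hζ hFζ =>
      (h ψ hψ).2.2 F hF.1 hF.2 ζ hζ hFζ⟩⟩
  have hq : Parabolic (1 / 4) := by
    refine ⟨1, le_rfl, 1 / 2, ?_, ?_, Pool.Agent.Q186.Par.quarter_orbit⟩
    · simp only [Function.iterate_one, f]
      norm_num
    · rw [Function.iterate_one]
      have h1 := Pool.Agent.Y736.HL.hasDerivAt_fc (1 / 4 : ℂ) (1 / 2 : ℂ)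
      have h2 : HasDerivAt (f (1 / 4)) (2 * (1 / 2)) (1 / 2 : ℂ) := h1
      rw [h2.deriv]
      norm_num
  have hr : Parabolic (-3 / 4) := by
    refine ⟨2, by norm_num, -1 / 2, ?_, ?_, Pool.Agent.Q186.Par.root_orbit⟩
    · simp only [Function.iterate_succ, Function.iterate_zero, Function.comp, f, id]
      norm_num
    · have h1 : ∀ z : ℂ, HasDerivAt (f (-3 / 4)) (2 * z) z :=
        Pool.Agent.Y736.HL.hasDerivAt_fc (-3 / 4 : ℂ)
      have h2 : (f (-3 / 4))^[2] = f (-3 / 4) ∘ f (-3 / 4) := rfl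
      have h3 : f (-3 / 4) (-1 / 2) = -1 / 2 := by
        simp only [f]
        norm_num
      have h4 : HasDerivAt (f (-3 / 4) ∘ f (-3 / 4)) (2 * f (-3 / 4) (-1 / 2) * (2 * (-1 / 2)))
          (-1 / 2 : ℂ) := (h1 _).comp _ (h1 _)
      rw [h2, h4.deriv, h3]
      norm_num
  refine ⟨⟨_, exteriorMap_of_beta hβ⟩, hpar, hq, hr, ?_⟩
  obtain ⟨hm, A, hA, h⟩ := hpar _ hq
  refine ⟨A, hA, fun ψ hψ F hF => ?_⟩
  obtain ⟨ζ, hζ, hFζ⟩ := Pool.Agent.Y736.HL.exists_angle hm Pool.Agent.Q186.Par.quarter_closure hψ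
    hF.1 hF.2
  exact ⟨ζ, hζ, hFζ, (h ψ hψ).2.2 F hF ζ hζ hFζ⟩

end Pool.Agent.Results.MP_c6f924_an.ParabolicModulus
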