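import Mathlib
import Pool.Prelude.Def_F_c31e40fa
import Pool.Agent.Q186.Cusp.Typ4

/-!
# The exterior map of the Mandelbrot set at the cusp: the typical rays

Let `ψ` be the exterior map of the Mandelbrot set, and `κ = π log 2`. At the cusp `1 / 4` it has the
angular limit `1 / 4`, with the exact rate `|ψ (w) - 1 / 4| ∼ (κ / log (1 / |w - 1|)) ^ 2` in every
angle with vertex `1`; and the landing points `γ (θ)` of the external rays (almost all rays land)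
satisfy `|γ (θ) - 1 / 4| ∼ (κ / log (1 / θ)) ^ 2` as `θ → 0+` outside a set of angles which has
density zero at `0`.
-/

set_option autoImplicit false

open Filter Topology Set Metric MeasureTheory N62a1eb23

namespace Pool.Agent.Results.MP_c6f924_an.TypicalRays

open Pool.Agent.H713R2 (IsExteriorMap)

/-- The external ray of angle `θ` (in radians) lands at `ζ`. -/
def Lands (ψ : ℂ → ℂ) (θ : ℝ) (ζ : ℂ) : Prop :=
  Tendsto (fun ρ : ℝ => ψ (ρ * Complex.exp (θ * Complex.I))) (𝓝[>] 1) (𝓝 ζ)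

/-- The angles in `(0, t]` of the rays which land at a point `ζ` for which
`log (1 / θ) ^ 2 * |ζ - 1 / 4|` differs from `(π log 2) ^ 2` by at most `ε`. -/
def good (ψ : ℂ → ℂ) (ε t : ℝ) : Set ℝ :=
  {θ : ℝ | θ ∈ Ioc 0 t ∧ ∃ ζ : ℂ, Lands ψ θ ζ ∧
    |Real.log (1 / θ) ^ 2 * ‖ζ - 1 / 4‖ - (Real.pi * Real.log 2) ^ 2| ≤ ε}

/-- The exterior map `ψ` of the Mandelbrot set exists, and (with `κ = π log 2`)

(1) for every `K`, `log (1 / |w - 1|) ^ 2 * |ψ w - 1 / 4|` tends to `κ ^ 2` as `w → 1`, `|w| > 1`,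
`|w - 1| ≤ K (|w| - 1)`;

(2) almost every external ray lands, and for every `ε > 0` the proportion of the angles `θ` in
`(0, t)` for which the ray of angle `θ` lands at a point `ζ` with
`|log (1 / θ) ^ 2 * |ζ - 1 / 4| - κ ^ 2| ≤ ε` tends to `1` as `t → 0+`. -/
theorem result :
    (∃ ψ : ℂ → ℂ, IsExteriorMap mandelbrotSet ψ) ∧
    ∀ ψ : ℂ → ℂ, IsExteriorMap mandelbrotSet ψ →
      (∀ K : ℝ, Tendsto (fun w : ℂ => Real.log (1 / ‖w - 1‖) ^ 2 * ‖ψ w - 1 / 4‖)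
        (𝓝[{w : ℂ | 1 < ‖w‖ ∧ ‖w - 1‖ ≤ K * (‖w‖ - 1)}] 1)
        (𝓝 ((Real.pi * Real.log 2) ^ 2))) ∧
      (∀ᵐ θ : ℝ, ∃ ζ : ℂ, Lands ψ θ ζ) ∧
      ∀ ε : ℝ, 0 < ε →
        Tendsto (fun t : ℝ => (volume (good ψ ε t)).toReal / t) (𝓝[>] 0) (𝓝 1) := by
  have hd : 2 ≤ 2 := le_rfl
  obtain ⟨β, hβ⟩ := Pool.Agent.H713R2.exists_beta (d := 2) hd
  have hs : Pool.Agent.H712R2.sr 2 = 1 / 2 := by
    have h1 := Pool.Agent.H712R2.sr_pow hd
    simpa using h1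
  have hr : Pool.Agent.H712R2.rr 2 = 1 / 4 := by
    unfold Pool.Agent.H712R2.rr
    rw [hs]
    norm_num
  have hrc : ((Pool.Agent.H712R2.rr 2 : ℝ) : ℂ) = 1 / 4 := by
    rw [hr]
    norm_num
  have hA : Pool.Agent.Q186.Cusp.AA 2 = 1 := by
    rw [Pool.Agent.Q186.Cusp.AA_eq hd, hs]
    norm_num
  have hk : Pool.Agent.Q186.Cusp.kap 2 = Real.pi * Real.log 2 := by
    unfold Pool.Agent.Q186.Cusp.kap
    rw [hA, Real.sqrt_one, div_one]
    norm_num
  refine ⟨⟨_, Pool.Agent.H713R2.exteriorMap_of_beta hβ⟩, ?_⟩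
  intro ψ hψ
  refine ⟨?_, Pool.Agent.Y736.HG.ae_land hd hψ, ?_⟩
  · intro K
    have h1 := Pool.Agent.Q186.Cusp.Typ.angular hd hψ K
    rw [hk, hrc] at h1
    exact h1
  · intro ε hε
    have h1 := Pool.Agent.Q186.Cusp.Typ.typical hd hψ hε
    have h2 : ∀ t, Pool.Agent.Q186.Cusp.Typ.Good 2 ψ ε t = good ψ ε t := by
      intro t
      unfold Pool.Agent.Q186.Cusp.Typ.Good good Lands
      rw [hk, hrc]
    simp only [h2] at h1
    exact h1

end Pool.Agent.Results.MP_c6f924_an.TypicalRays
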